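import Pool.Agent.ED72.Count
import Pool.Agent.ED72.NF
import Pool.Agent.ED72.FF

/-!
# Exceptional sets of the n-term abc conjecture have superpolynomial degree in `1 / ε`

`T k A N` is the number of monic polynomials over `k` of degree less than `N` that divide a power of
`X (1 + X + … + X ^ (A - 1))`. For a number field `K` (and `k = K`) or a function field `K` in one
variable over `k`, for `n = m + 4` terms and `A ≤ N`, `ε (N - 1) < 1`: outside every hypersurface
of degree less than `T k A N - 1` that does not contain the hyperplane `Z_1 + … + Z_n = 0` there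
are points with `h ≥ (1 + ε) rad + C`. The numbers `T k A N` are at least `(q + 1) ^ τ(A)` for
`q A < N`, and at least `binom (N + A - 1) A` if `k` contains the `A`-th roots of unity.

The points lie on the curves with constant coordinates `y_i`, and further coordinates `σ X ^ A`,
`σ c (X - 1) R` and minus the sum `- σ (X - 1) (W + c R)`, where `σ = - ∑ y_i`,
`W = 1 + X + … + X ^ (A - 1)`, `R` is one of the polynomials counted by `T k A N` and
`c = - A / R(1)`.
-/

namespace Pool.Agent.Results.MP_7475bd_nt.ExceptionalGrowth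

open NumberField Polynomial H4FF

/-- The number of monic polynomials over `k` of degree less than `N` that divide a power of
`X (1 + X + … + X ^ (A - 1))`. -/
noncomputable def T (k : Type*) [Field k] (A N : ℕ) : ℕ :=
  {R : k[X] | R.Monic ∧ R.natDegree < N ∧
    ∃ j, R ∣ (X * ∑ i ∈ Finset.range A, X ^ i) ^ j}.ncard

/-- The height `h(P)` of the point `P` with coordinates `z`: the sum over all places `v` of `K` of
`n_v log max_j |z_j|_v`, divided by the degree of `K`. -/
noncomputable def heightNF (K : Type*) [Field K] [NumberField K] {n : ℕ} (z : Fin n → K) : ℝ :=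
  Height.logHeight z / Module.finrank ℚ K

/-- The radical `rad(P)`: the sum of `log N(v)` over the nonzero primes `v` of the ring of integers
of `K` at which the orders of the coordinates are not all equal, divided by the degree of `K`. -/
noncomputable def radNF (K : Type*) [Field K] [NumberField K] {n : ℕ} (z : Fin n → K) : ℝ :=
  (∑ᶠ v ∈ {v : IsDedekindDomain.HeightOneSpectrum (𝓞 K) |
      ∃ i j, v.valuation K (z i) ≠ v.valuation K (z j)},
    Real.log (Ideal.absNorm v.asIdeal)) / Module.finrank ℚ K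

universe u v w

theorem result :
    (∀ (K : Type u) [Field K] [NumberField K] (L : Type v) [Field L] [Algebra K L] (m A N : ℕ)
      (F : MvPolynomial (Fin (m + 4)) L) (ε C : ℝ),
      0 < A → A ≤ N → F.totalDegree + 1 < T K A N →
      (∃ x : Fin (m + 4) → L, ∑ i, x i = 0 ∧ MvPolynomial.eval x F ≠ 0) →
      0 ≤ ε → ε * (N - 1) < 1 →
      ∃ z : Fin (m + 4) → K, (∀ i, z i ≠ 0) ∧ ∑ i, z i = 0 ∧
        MvPolynomial.eval (fun i => algebraMap K L (z i)) F ≠ 0 ∧
        (1 + ε) * radNF K z + C ≤ heightNF K z) ∧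
    (∀ (k : Type u) (K : Type v) [Field k] [Field K] [Algebra k K] [CharZero k] (L : Type w)
      [Field L] [Algebra K L] (m A N : ℕ) (F : MvPolynomial (Fin (m + 4)) L) (ε C : ℝ),
      (⊤ : IntermediateField k K).FG → Algebra.trdeg k K = 1 →
      0 < A → A ≤ N → F.totalDegree + 1 < T k A N →
      (∃ x : Fin (m + 4) → L, ∑ i, x i = 0 ∧ MvPolynomial.eval x F ≠ 0) →
      0 ≤ ε → ε * (N - 1) < 1 →
      ∃ z : Fin (m + 4) → K, (∀ i, z i ≠ 0) ∧ ∑ i, z i = 0 ∧
        MvPolynomial.eval (fun i => algebraMap K L (z i)) F ≠ 0 ∧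
        (1 + ε) * rad k z + C ≤ height k z) ∧
    (∀ (k : Type u) [Field k] [CharZero k] (A N : ℕ), 0 < A →
      (∀ q, q * A < N → (q + 1) ^ A.divisors.card ≤ T k A N) ∧
      (0 < N → (∃ ζ : k, IsPrimitiveRoot ζ A) → (N + A - 1).choose A ≤ T k A N)) ∧
    (∀ j : ℕ, ∃ c : ℝ, 0 < c ∧ ∀ (k : Type u) [Field k] [CharZero k] (ε : ℝ), 0 < ε → ε < 1 →
      ∃ A N : ℕ, 0 < A ∧ A ≤ N ∧ ε * (N - 1) < 1 ∧ c / ε ^ j + 1 < T k A N) := by
  refine ⟨?_, ?_, ?_, ?_⟩
  · intro K _ _ L _ _ m A N F ε C hA hAN hF hF0 hε hεN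
    exact ED72.nf m A N hA hAN F hF hF0 ε C hε hεN
  · intro k K _ _ _ _ L _ _ m A N F ε C hfg htr hA hAN hF hF0 hε hεN
    exact ED72.ff hfg htr m A N hA hAN F hF hF0 ε C hε hεN
  · intro k _ _ A N hA
    refine ⟨fun q hq => ED72.ncard_ge_divisors A N q hA hq, ?_⟩
    rintro hN ⟨ζ, hζ⟩
    exact ED72.ncard_ge_choose A N hA hN ζ hζ
  · exact ED72.growth

end Pool.Agent.Results.MP_7475bd_nt.ExceptionalGrowth
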