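import Pool.Agent.H4FF.Final2
import Pool.Agent.H4FF.Rat

/-!
# The n-term abc inequality over function fields, by the transcendence degree of the point

`K` is a function field in one variable over a field `k` of characteristic zero. A point of the
hyperplane `Z_1 + … + Z_n = 0` of projective space over `K` is given by nonzero `z_i` with sum zero.
If the point is not constant, no proper subsum of the `z_i` vanishes, and `d = r + 1` of the ratios
`z_i / z_n` are algebraically independent over `ℚ`, then, with `n = m + r + 3 = m + 2 + d`,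

`height ≤ (m + 1) (m + 2) / 2 * (rad + κ) = (n - d) (n - d - 1) / 2 * (rad + κ)`,

where `κ` is the degree of the divisor of a nonzero derivation of `K` over `k`, so that `κ = 2 g - 2`;
it is `-2` for `K = k(x)`.

A nonconstant point has `d ≥ 1`, and `d = 1` gives the constant `(n - 1) (n - 2) / 2` of Brownawell
and Masser. For `m = 0`, that is, when the `n - 2` ratios `z_i / z_n` are as independent as they can
be, this is `height ≤ rad + κ`; there are no vanishing subsums then.
-/

namespace Pool.Agent.Results.MP_7475bd_nt.GenericPoints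

open H4FF IntermediateField

universe u v

variable {k : Type u} {K : Type v} [Field k] [Field K] [Algebra k K] [CharZero k] [CharZero K]

theorem result (hfg : (⊤ : IntermediateField k K).FG) (htr : Algebra.trdeg k K = 1) :
    (∀ x : K, {v : Place k K | v.lg x ≠ 0}.Finite) ∧ (∃ D : Derivation k K K, D ≠ 0) ∧
    ∃ κ : ℤ,
      (∀ D : Derivation k K K, D ≠ 0 → ∀ t : Place k K → K, (∀ v : Place k K, v.lg (t v) = -1) →
        {v : Place k K | v.lg (D (t v)) ≠ 0}.Finite ∧
        ∑ᶠ v : Place k K, (v.deg : ℤ) * v.lg (D (t v)) = κ) ∧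
      ((∃ x : K, k⟮x⟯ = ⊤) → κ = -2) ∧
      ∀ (m r : ℕ) (z : Fin (m + r + 3) → K), (∀ i, z i ≠ 0) → ∑ i, z i = 0 →
        (∃ i j, ¬ IsAlgebraic k (z i / z j)) →
        (0 < m → ∀ T : Finset (Fin (m + r + 3)), T.Nonempty → T ≠ Finset.univ →
          ∑ i ∈ T, z i ≠ 0) →
        ∀ idx : Fin (r + 1) → Fin (m + r + 3),
          (AlgebraicIndependent ℚ fun j => z (idx j) / z (Fin.last (m + r + 2))) →
          2 * height k z ≤ (m + 1) * (m + 2) * (rad k z + κ) := by
  obtain ⟨κ, hκ, hmain⟩ := H4FF.main2 hfg htr
  have hex : ∀ v : Place k K, ∃ t : K, v.lg t = -1 := fun v => by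
    obtain ⟨t, -, ht⟩ := v.exists_unif
    exact ⟨t, ht⟩
  choose t0 ht0 using hex
  obtain ⟨D0, hD0, hD1⟩ := exists_derivation k K htr
  refine ⟨finite_support hfg htr, ⟨D0, hD0⟩, κ, fun D hD t ht => ⟨?_, hκ D hD t ht⟩, ?_, hmain⟩
  · refine finite_support_der hfg htr D (fun c => D.map_algebraMap c) ?_ t ht
    by_contra h
    push Not at h
    exact hD (Derivation.ext h)
  · rintro ⟨x, hx⟩
    rw [← hκ D0 hD0 t0 ht0]
    exact canon_rat hfg htr D0 (fun c => D0.map_algebraMap c) hD1 t0 ht0 hx

end Pool.Agent.Results.MP_7475bd_nt.GenericPoints
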