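import Pool.Agent.H7.ABCD.Main

/-!
# The error term of the `n`-term abc inequality

For every number field `K`, every `n ≥ 3` and every proper closed subset `Z` of the hyperplane
`Z_1 + … + Z_n = 0` there are points `P` outside `Z`, with nonzero integral coordinates and of
arbitrarily large height, with `h(P) ≥ rad(P) + h(P) ^ (1 - 1 / (n - 1)) / (6 log h(P))`.
-/

namespace Pool.Agent.Results.MP_7475bd_nt.SecondaryTerm

open NumberField

/-- The height `h(P)` of the point `P` with coordinates `z`: the sum over all places `v` of `K` of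
`n_v log max_j |z_j|_v`, divided by the degree of `K`. -/
noncomputable def height (K : Type*) [Field K] [NumberField K] {n : ℕ} (z : Fin n → K) : ℝ :=
  Height.logHeight z / Module.finrank ℚ K

/-- The radical `rad(P)`: the sum of `log N(v)` over the nonzero primes `v` of the ring of integers
of `K` at which the orders of the coordinates are not all equal, divided by the degree of `K`. -/
noncomputable def rad (K : Type*) [Field K] [NumberField K] {n : ℕ} (z : Fin n → K) : ℝ :=
  (∑ᶠ v ∈ {v : IsDedekindDomain.HeightOneSpectrum (𝓞 K) |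
      ∃ i j, v.valuation K (z i) ≠ v.valuation K (z j)},
    Real.log (Ideal.absNorm v.asIdeal)) / Module.finrank ℚ K

theorem result (n : ℕ) (hn : 3 ≤ n) (K : Type*) [Field K] [NumberField K]
    (F : MvPolynomial (Fin n) K) (d : ℕ) (hF : F.IsHomogeneous d)
    (hFH : ∃ x : Fin n → K, ∑ i, x i = 0 ∧ MvPolynomial.eval x F ≠ 0) (B : ℝ) :
    ∃ z : Fin n → ℤ, (∀ i, z i ≠ 0) ∧ ∑ i, z i = 0 ∧
      MvPolynomial.eval (fun i => (z i : K)) F ≠ 0 ∧
      B ≤ height K (fun i => (z i : K)) ∧
      rad K (fun i => (z i : K)) +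
          height K (fun i => (z i : K)) ^ (1 - 1 / ((n : ℝ) - 1)) /
            (6 * Real.log (height K (fun i => (z i : K)))) ≤
        height K (fun i => (z i : K)) := by
  obtain ⟨m, rfl⟩ : ∃ m, n = m + 2 := ⟨n - 2, by omega⟩
  obtain ⟨z, h1, h2, h3, h4, h5⟩ := H7.ABCD.main m (by omega) K F d hF hFH B
  refine ⟨z, h1, h2, h3, h4, ?_⟩
  have hm : (0 : ℝ) < (m : ℝ) + 1 := by positivity
  have he : (1 - 1 / (((m + 2 : ℕ) : ℝ) - 1)) = (m : ℝ) / (m + 1) := by
    push_cast
    rw [show (m : ℝ) + 2 - 1 = m + 1 by ring]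
    field_simp
    ring
  rw [he]
  refine le_trans (le_of_eq ?_) h5
  unfold rad height H7.ABCD.badPrimes
  ring

end Pool.Agent.Results.MP_7475bd_nt.SecondaryTerm
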