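import Pool.Agent.PSV.Final
import Pool.Agent.PSV.Four
import Pool.Agent.GL33.Cnt

/-!
# Few rational points violate the n-term abc inequality

A rational point of the hyperplane `Z_1 + … + Z_n = 0` without vanishing subsums is given, up to
sign, by a primitive integral vector `z`. Let `n ≥ 4`. The number of those of height at most `log B`
with `(1 + ε) rad + C ≤ log B` is at most `A * B ^ (θ / (1 + ε) + δ)`, with `θ = 3 / 4` for `n = 4`
and `θ = 1 - 1 / (2 n - 3)` for `n ≥ 5`. All points of height at most `log B` that violate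
`height < (1 + ε) rad + C` are counted.
-/

namespace Pool.Agent.Results.MP_7475bd_nt.SparseViolations

/-- Primitive integral vectors with sum zero and no vanishing proper subsum (so all coordinates are
non-zero): the rational points of the hyperplane without vanishing subsums, up to sign. -/
structure IsPoint {n : ℕ} (z : Fin n → ℤ) : Prop where
  sum_eq_zero : ∑ i, z i = 0
  subsum_ne_zero : ∀ I : Finset (Fin n), I.Nonempty → I ≠ Finset.univ → ∑ i ∈ I, z i ≠ 0
  primitive : ∀ g : ℤ, (∀ i, g ∣ z i) → IsUnit g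

/-- The logarithm of the largest absolute value of the `z i`. -/
noncomputable def height {n : ℕ} (z : Fin n → ℤ) : ℝ :=
  Real.log ((Finset.univ.sup fun i => (z i).natAbs : ℕ) : ℝ)

/-- The sum of `log p` over the primes `p` dividing the product of the `z i`. -/
noncomputable def rad {n : ℕ} (z : Fin n → ℤ) : ℝ :=
  ∑ p ∈ (∏ i, z i).natAbs.primeFactors, Real.log p

/-- The exponent: `3 / 4` for `n = 4` and `1 - 1 / (2 n - 3)` for `n ≥ 5`. -/
noncomputable def theta (n : ℕ) : ℝ := if n = 4 then 3 / 4 else 1 - 1 / (2 * (n : ℝ) - 3)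

theorem result (n : ℕ) (hn : 4 ≤ n) (ε δ C : ℝ) (hε : -1 < ε) (hδ : 0 < δ) :
    ∃ A : ℝ, ∀ B : ℕ, 1 ≤ B →
      {z : Fin n → ℤ | IsPoint z ∧ height z ≤ Real.log B ∧
        (1 + ε) * rad z + C ≤ Real.log B}.Finite ∧
      ({z : Fin n → ℤ | IsPoint z ∧ height z ≤ Real.log B ∧
        (1 + ε) * rad z + C ≤ Real.log B}.ncard : ℝ) ≤
          A * (B : ℝ) ^ (theta n / (1 + ε) + δ) := by
  have hmain : ∃ A : ℝ, ∀ B : ℕ, 1 ≤ B → ∀ Z : Finset (Fin n → ℤ),
      (∀ z ∈ Z, ∑ i, z i = 0 ∧
        (∀ I : Finset (Fin n), I.Nonempty → I ≠ Finset.univ → ∑ i ∈ I, z i ≠ 0) ∧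
        (∀ g : ℤ, (∀ i, g ∣ z i) → IsUnit g) ∧ (∀ i, |z i| ≤ B) ∧
        (1 + ε) * ∑ p ∈ (∏ i, z i).natAbs.primeFactors, Real.log p + C ≤ Real.log B) →
      (Z.card : ℝ) ≤ A * (B : ℝ) ^ (theta n / (1 + ε) + δ) := by
    rcases eq_or_ne n 4 with rfl | h4
    · obtain ⟨A, hA⟩ := PSV.main 4 (by norm_num) 4 (by norm_num) PSV.cnt_four ε δ C hε hδ
      refine ⟨A, fun B hB Z hZ => ?_⟩
      have h := hA B hB Z hZ
      have ht : theta 4 = 1 - 1 / (4 : ℝ) := by norm_num [theta]
      rw [ht]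
      exact h
    · obtain ⟨A, hA⟩ := PSV.main n (by omega) (2 * (n : ℝ) - 3)
        (by
          have h : (4 : ℝ) ≤ n := by exact_mod_cast hn
          linarith) (GL33.cnt n (by omega)) ε δ C hε hδ
      refine ⟨A, fun B hB Z hZ => ?_⟩
      have h := hA B hB Z hZ
      have ht : theta n = 1 - 1 / (2 * (n : ℝ) - 3) := by simp [theta, h4]
      rw [ht]
      exact h
  obtain ⟨A, hA⟩ := hmain
  refine ⟨A, fun B hB => ?_⟩
  have hbox : ∀ z : Fin n → ℤ, IsPoint z → height z ≤ Real.log B → ∀ i, |z i| ≤ B := by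
    intro z hz hh i
    have h0 : z i ≠ 0 := by
      have h := hz.subsum_ne_zero {i} (Finset.singleton_nonempty i) (by
        intro h
        have := congrArg Finset.card h
        rw [Finset.card_singleton, Finset.card_univ, Fintype.card_fin] at this
        omega)
      simpa using h
    have h1 : (z i).natAbs ≤ (Finset.univ.sup fun i => (z i).natAbs : ℕ) :=
      Finset.le_sup (f := fun i => (z i).natAbs) (Finset.mem_univ i)
    have h2 : 0 < (Finset.univ.sup fun i => (z i).natAbs : ℕ) :=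
      lt_of_lt_of_le (Int.natAbs_pos.2 h0) h1
    have h3 : (Finset.univ.sup fun i => (z i).natAbs : ℕ) ≤ B := by
      have h4 := (Real.log_le_log_iff (by exact_mod_cast h2) (by exact_mod_cast hB)).1 hh
      exact_mod_cast h4
    have h5 := h1.trans h3
    zify at h5
    exact h5
  have hfin : {z : Fin n → ℤ | IsPoint z ∧ height z ≤ Real.log B ∧
      (1 + ε) * rad z + C ≤ Real.log B}.Finite := by
    apply (Set.finite_Icc (fun _ => -(B : ℤ) : Fin n → ℤ) (fun _ => (B : ℤ))).subset
    rintro z ⟨h1, h2, -⟩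
    have h3 := hbox z h1 h2
    exact ⟨fun i => (abs_le.1 (h3 i)).1, fun i => (abs_le.1 (h3 i)).2⟩
  refine ⟨hfin, ?_⟩
  rw [Set.ncard_eq_toFinset_card _ hfin]
  apply hA B hB
  intro z hz
  rw [Set.Finite.mem_toFinset] at hz
  obtain ⟨h1, h2, h3⟩ := hz
  exact ⟨h1.sum_eq_zero, h1.subsum_ne_zero, h1.primitive, hbox z h1 h2, h3⟩

end Pool.Agent.Results.MP_7475bd_nt.SparseViolations
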